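import Pool.Agent.Hp428.TJ.Jen
import Pool.Agent.Hp428.TD.Fin
import Pool.Agent.Hp428.TH.Grow
import Pool.Agent.W29.RT.Loc

set_option autoImplicit false

/-!
# Jensen polynomials of the derivatives: abstract form
-/

namespace Pool.Agent.Hp428.TJ

open Complex Filter Topology Set Metric
open Pool.Agent.Hp428.TD
open Pool.Agent.Y671.LD (bad)
open Pool.Agent.W29.RT.Loc (conj_iter scale)
open H353.E (GLc)
open scoped ComplexConjugate

theorem rpow32 {t : ℝ} (ht : 0 < t) : t ^ (3 / 2 : ℝ) = Real.sqrt t * t := by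
  rw [show (3 / 2 : ℝ) = 1 / 2 + 1 by norm_num, Real.rpow_add ht, Real.rpow_one, Real.sqrt_eq_rpow]

theorem log_sqrt {y : ℝ} (hy : 0 < y) : Real.log y ≤ 2 * Real.sqrt y := by
  have h1 := Real.log_le_sub_one_of_pos (Real.sqrt_pos.2 hy)
  rw [Real.log_sqrt hy.le] at h1
  linarith

/-- the order of growth of the completed L-function -/
theorem grow_G {L K Q : ℝ} {R G : ℂ → ℂ} (hK : 1 ≤ K) (hL : 1 ≤ L) (H : GQ L K Q R G) :
    ∃ A : ℝ, 0 ≤ A ∧ ∀ z : ℂ, ‖G z‖ ≤ Real.exp (A * (1 + ‖z‖) ^ (3 / 2 : ℝ)) := by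
  obtain ⟨c, hc, hf⟩ := H.fac
  have hQ := H.hQ
  have hc0 : 0 < ‖c‖ := norm_pos_iff.2 hc
  have hlogL := Real.log_nonneg hL
  have hright : ∀ z : ℂ, 0 ≤ z.re → ‖G z‖ ≤ Real.exp (Real.log ‖c‖ + K * Real.log L +
      ((|Real.log Q| + 5) + (1 + K) * Real.log (‖z‖ + 13)) * (‖z‖ + 1)) := by
    intro z hz
    rw [hf z hz]
    simp only [norm_mul]
    rw [Complex.norm_cpow_eq_rpow_re_of_pos hQ, Real.rpow_def_of_pos hQ]
    have h1 := gam_growth hz
    have h2 := H.rn.up z hz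
    have hn := norm_nonneg z
    have h3 : Real.log Q * z.re ≤ |Real.log Q| * ‖z‖ := by
      calc Real.log Q * z.re ≤ |Real.log Q| * z.re := by gcongr; exact le_abs_self _
        _ ≤ _ := by gcongr; exact re_le_norm z
    have h4 : el L z.im ≤ Real.log L + Real.log (‖z‖ + 13) := by
      unfold el
      have := abs_im_le_norm z
      have h5 : Real.log (2 + |z.im|) ≤ Real.log (‖z‖ + 13) :=
        Real.log_le_log (by positivity) (by linarith)
      linarith
    have h5 : Real.log (‖z‖ + 3) ≤ Real.log (‖z‖ + 13) :=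
      Real.log_le_log (by positivity) (by linarith)
    have h6 : 0 ≤ Real.log (‖z‖ + 13) := Real.log_nonneg (by linarith)
    calc ‖c‖ * Real.exp (Real.log Q * z.re) * ‖Gamma (1 + z)‖ * ‖R z‖
        ≤ Real.exp (Real.log ‖c‖) * Real.exp (|Real.log Q| * ‖z‖) *
          Real.exp (‖z‖ * (5 + Real.log (‖z‖ + 3))) *
          Real.exp (K * (Real.log L + Real.log (‖z‖ + 13))) := by
          rw [Real.exp_log hc0]
          gcongr
          refine h2.trans (Real.exp_le_exp.2 ?_)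
          gcongr
      _ = Real.exp (Real.log ‖c‖ + |Real.log Q| * ‖z‖ + ‖z‖ * (5 + Real.log (‖z‖ + 3)) +
          K * (Real.log L + Real.log (‖z‖ + 13))) := by
          rw [Real.exp_add, Real.exp_add, Real.exp_add]
      _ ≤ _ := by
          apply Real.exp_le_exp.2
          have t1 : ‖z‖ * (5 + Real.log (‖z‖ + 3)) ≤ ‖z‖ * (5 + Real.log (‖z‖ + 13)) := by gcongr
          have t2 : 0 ≤ |Real.log Q| := abs_nonneg _
          have t3 : 0 ≤ K * Real.log (‖z‖ + 13) * ‖z‖ := by positivity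
          nlinarith
  have hall : ∀ z : ℂ, ‖G z‖ ≤ Real.exp (Real.log ‖c‖ + K * Real.log L +
      ((|Real.log Q| + 5) + (1 + K) * Real.log (‖z‖ + 13)) * (‖z‖ + 1)) := by
    intro z
    rcases le_total 0 z.re with h | h
    · exact hright z h
    · have h1 := hright (-(conj z)) (by simpa using h)
      rw [H.symm, Complex.norm_conj, norm_neg, Complex.norm_conj] at h1
      exact h1
  refine ⟨|Real.log ‖c‖| + K * Real.log L + (|Real.log Q| + 5) + (1 + K) * 8, by positivity,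
    fun z => (hall z).trans (Real.exp_le_exp.2 ?_)⟩
  have hn := norm_nonneg z
  obtain ⟨t, ht⟩ : ∃ t : ℝ, t = 1 + ‖z‖ := ⟨_, rfl⟩
  have ht1 : 1 ≤ t := by linarith
  rw [← ht, rpow32 (by linarith), show ‖z‖ + 1 = t by rw [ht]; ring]
  obtain ⟨s, hs⟩ : ∃ s : ℝ, s = Real.sqrt t := ⟨_, rfl⟩
  have hs1 : 1 ≤ s := by rw [hs]; exact Real.one_le_sqrt.2 ht1
  have hst : s ^ 2 = t := by rw [hs]; exact Real.sq_sqrt (by linarith)
  have hlog : Real.log (‖z‖ + 13) ≤ 8 * s := by
    have h1 : Real.log (‖z‖ + 13) ≤ Real.log (16 * t) := Real.log_le_log (by positivity) (by linarith)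
    have h2 := log_sqrt (y := 16 * t) (by linarith)
    have h3 : Real.sqrt (16 * t) = 4 * s := by
      rw [Real.sqrt_mul (by norm_num), ← hs]
      congr 1
      rw [show (16 : ℝ) = 4 ^ 2 by norm_num]
      exact Real.sqrt_sq (by norm_num)
    linarith
  rw [← hs]
  have hts : t ≤ s * t := by nlinarith
  have h1s : 1 ≤ s * t := by linarith
  have a1 : Real.log ‖c‖ ≤ |Real.log ‖c‖| * (s * t) :=
    (le_abs_self _).trans (le_mul_of_one_le_right (abs_nonneg _) h1s)
  have a2 : K * Real.log L ≤ K * Real.log L * (s * t) := le_mul_of_one_le_right (by positivity) h1s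
  have a3 : (|Real.log Q| + 5) * t ≤ (|Real.log Q| + 5) * (s * t) := by gcongr
  have a4 : (1 + K) * Real.log (‖z‖ + 13) * t ≤ (1 + K) * (8 * s) * t := by gcongr
  have e1 : (|Real.log Q| + 5 + (1 + K) * Real.log (‖z‖ + 13)) * t =
      (|Real.log Q| + 5) * t + (1 + K) * Real.log (‖z‖ + 13) * t := by ring
  have e2 : (|Real.log ‖c‖| + K * Real.log L + (|Real.log Q| + 5) + (1 + K) * 8) * (s * t) =
      |Real.log ‖c‖| * (s * t) + K * Real.log L * (s * t) + (|Real.log Q| + 5) * (s * t) +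
      (1 + K) * (8 * s) * t := by ring
  rw [e1, e2]
  linarith

/-- the growth of the derivatives -/
theorem grow_iter {G : ℂ → ℂ} (hG : Differentiable ℂ G) {A : ℝ} (hA : 0 ≤ A)
    (h : ∀ z : ℂ, ‖G z‖ ≤ Real.exp (A * (1 + ‖z‖) ^ (3 / 2 : ℝ))) (n : ℕ) :
    ∃ B : ℝ, 0 ≤ B ∧ ∀ z : ℂ, ‖iteratedDeriv n G z‖ ≤ Real.exp (B * (1 + ‖z‖) ^ (3 / 2 : ℝ)) := by
  have hfac : (1 : ℝ) ≤ n.factorial := by exact_mod_cast Nat.one_le_iff_ne_zero.2 n.factorial_ne_zero
  refine ⟨Real.log n.factorial + A * 2 ^ (3 / 2 : ℝ), by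
    have := Real.log_nonneg hfac
    positivity, fun z => ?_⟩
  have hn := norm_nonneg z
  have h1 := Complex.norm_iteratedDeriv_le_of_forall_mem_sphere_norm_le (c := z) (R := 1)
    (C := Real.exp (A * (2 * (1 + ‖z‖)) ^ (3 / 2 : ℝ))) (f := G) n one_pos hG.diffContOnCl (by
      intro u hu
      refine (h u).trans (Real.exp_le_exp.2 ?_)
      rw [mem_sphere_iff_norm] at hu
      have h2 : ‖u‖ ≤ ‖u - z‖ + ‖z‖ := by simpa using norm_add_le (u - z) z
      have h3 : 1 + ‖u‖ ≤ 2 * (1 + ‖z‖) := by linarith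
      gcongr)
  rw [one_pow, div_one] at h1
  refine h1.trans ?_
  have h4 : (1 : ℝ) ≤ (1 + ‖z‖) ^ (3 / 2 : ℝ) := Real.one_le_rpow (by linarith) (by norm_num)
  calc (n.factorial : ℝ) * Real.exp (A * (2 * (1 + ‖z‖)) ^ (3 / 2 : ℝ))
      = Real.exp (Real.log n.factorial + A * (2 * (1 + ‖z‖)) ^ (3 / 2 : ℝ)) := by
        rw [Real.exp_add, Real.exp_log (by linarith)]
    _ ≤ _ := by
        apply Real.exp_le_exp.2
        rw [Real.mul_rpow (by norm_num) (by linarith), add_mul, mul_assoc]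
        have := le_mul_of_one_le_right (Real.log_nonneg hfac) h4
        linarith

/-- the zeros of the derivatives are in the strip -/
theorem strip_iter {L K Q K2 : ℝ} {R G : ℂ → ℂ} (hK : 1 ≤ K) (hL : 1 ≤ L) (H : GQ L K Q R G)
    (hnb : ∀ (n : ℕ) (s : ℂ), K2 * el L s.im ≤ n → ¬ bad G n s) (n : ℕ) {s : ℂ}
    (hs : iteratedDeriv n G s = 0) : |s.re| ≤ 1 / 2 := by
  have hne : ∀ m : ℕ, ∃ z, iteratedDeriv m G z ≠ 0 := by
    intro m
    obtain ⟨M, hM⟩ := exists_nat_ge (K2 * el L (0 : ℂ).im)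
    have h1 := hnb (m + M) 0 (hM.trans (by
      push_cast
      linarith [Nat.cast_nonneg (α := ℝ) m]))
    by_contra hcon
    push Not at hcon
    apply h1
    have hall : ∀ j : ℕ, iteratedDeriv (m + j) G = fun _ => 0 := by
      intro j
      induction j with
      | zero => exact funext hcon
      | succ j ih =>
        rw [← add_assoc, iteratedDeriv_succ, ih]
        simp
    refine ⟨by rw [hall M], Or.inr ?_⟩
    rw [add_assoc, hall (M + 1)]
  have hG := glc hK hL H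
  have hne' : ∀ m : ℕ, ∃ z, iteratedDeriv m (fun s => G (s - 1 / 2)) z ≠ 0 := by
    intro m
    obtain ⟨z, hz⟩ := hne m
    refine ⟨z + 1 / 2, ?_⟩
    rw [iteratedDeriv_comp_sub_const]
    simpa using hz
  have h1 := hG.iter hne' n
  have hz : iteratedDeriv n (fun s => G (s - 1 / 2)) (s + 1 / 2) = 0 := by
    rw [iteratedDeriv_comp_sub_const]
    simpa using hs
  have h2 := h1.zer _ hz
  have h4 := h1.lower (hne' n) hz
  have e : (s + 1 / 2).re = s.re + 1 / 2 := by simp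
  rw [e] at h2 h4
  rw [abs_le]
  constructor <;> linarith

theorem iter_iter (E : ℂ → ℂ) (n j : ℕ) :
    iteratedDeriv j (iteratedDeriv n E) = iteratedDeriv (n + j) E := by
  induction j with
  | zero => simp
  | succ j ih => rw [iteratedDeriv_succ, ih, ← add_assoc, iteratedDeriv_succ]

theorem iter_parity {E : ℂ → ℂ} {w : ℝ} (h : ∀ z : ℂ, E (-z) = w * E z) (n : ℕ) (z : ℂ) :
    iteratedDeriv n E (-z) = ((-1) ^ n * w : ℝ) * iteratedDeriv n E z := by
  have h1 := iteratedDeriv_comp_neg n E z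
  have h2 : (fun x => E (-x)) = fun x => (w : ℂ) * E x := funext h
  rw [h2, iteratedDeriv_const_mul_field, smul_eq_mul] at h1
  have h3 : ((-1 : ℂ)) ^ n * (-1) ^ n = 1 := by rw [← mul_pow]; norm_num
  push_cast
  calc iteratedDeriv n E (-z) = ((-1 : ℂ) ^ n * (-1) ^ n) * iteratedDeriv n E (-z) := by
        rw [h3, one_mul]
    _ = (-1) ^ n * ((-1) ^ n * iteratedDeriv n E (-z)) := by ring
    _ = (-1) ^ n * (w * iteratedDeriv n E z) := by rw [← h1]
    _ = _ := by ring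

/-- **Abstract theorem** on Jensen polynomials. -/
theorem jensen_abs {K : ℝ} (hK : 1 ≤ K) : ∃ K2 L0 : ℝ, 1 ≤ K2 ∧ 100 ≤ L0 ∧
    ∀ (L Q w : ℝ) (R G E : ℂ → ℂ) (ω : ℂ), L0 ≤ L → GQ L K Q R G → ω ≠ 0 → (G = fun z => ω * E z) →
      Differentiable ℂ E → (∀ z : ℂ, E (conj z) = conj (E z)) → (w = 1 ∨ w = -1) →
      (∀ z : ℂ, E (-z) = w * E z) → ∀ (D n : ℕ) (x : ℂ), 1 ≤ D →
      K2 * (Real.log L + Real.log (2 + D)) ≤ n →
      (∑ j ∈ Finset.range (D + 1), (D.choose j : ℂ) * iteratedDeriv (n + j) E 0 * x ^ j) = 0 →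
      x.re = 0 := by
  obtain ⟨K2, L0, hK2, hL0, hmain⟩ := main_abs hK
  refine ⟨K2, L0, hK2, hL0, fun L Q w R G E ω hL H hω hGE hE hEc hw hEw D n x hD hn hx => ?_⟩
  have hL1 : 1 ≤ L := by linarith
  have hnb := hmain L Q R G hL H
  have hGn : ∀ (m : ℕ) (z : ℂ), iteratedDeriv m G z = ω * iteratedDeriv m E z := by
    intro m z
    rw [hGE, iteratedDeriv_const_mul_field]
  have hGz : ∀ (m : ℕ) (z : ℂ), iteratedDeriv m E z = 0 → iteratedDeriv m G z = 0 := by
    intro m z h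
    rw [hGn, h, mul_zero]
  have hDr : (1 : ℝ) ≤ D := by exact_mod_cast hD
  have hnb0 : ¬ bad G n 0 := by
    refine hnb n 0 (le_trans ?_ hn)
    unfold el
    have h1 : Real.log (2 + |(0 : ℂ).im|) ≤ Real.log (2 + D) :=
      Real.log_le_log (by simp) (by simp)
    gcongr
  obtain ⟨w', hw'⟩ : ∃ w' : ℝ, w' = (-1) ^ n * w := ⟨_, rfl⟩
  have hw'1 : w' = 1 ∨ w' = -1 := by
    rw [hw']
    rcases neg_one_pow_eq_or ℝ n with h1 | h1 <;> rcases hw with h2 | h2 <;> rw [h1, h2] <;> norm_num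
  have hpar : ∀ z : ℂ, iteratedDeriv n E (-z) = (w' : ℂ) * iteratedDeriv n E z := by
    intro z
    rw [hw']
    exact iter_parity hEw n z
  have hpar1 : ∀ z : ℂ, iteratedDeriv (n + 1) E (-z) = (-w' : ℂ) * iteratedDeriv (n + 1) E z := by
    intro z
    rw [iter_parity hEw (n + 1) z, hw']
    push_cast
    ring
  obtain ⟨u, hu0, hu⟩ : ∃ u : ℂ, u ≠ 0 ∧ u * (w' : ℂ) = conj u := by
    rcases hw'1 with h | h
    · exact ⟨1, one_ne_zero, by rw [h]; simp⟩
    · exact ⟨I, I_ne_zero, by rw [h]; simp⟩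
  obtain ⟨f, hf⟩ : ∃ f : ℂ → ℂ, f = fun z => u * iteratedDeriv n E (I * z) := ⟨_, rfl⟩
  have hEn : Differentiable ℂ (iteratedDeriv n E) :=
    (hE.contDiff (n := (⊤ : ℕ∞))).differentiable_iteratedDeriv n
      (by exact_mod_cast WithTop.coe_lt_top n)
  have hfd : Differentiable ℂ f := by
    rw [hf]
    exact (hEn.comp (differentiable_id.const_mul I)).const_mul u
  have hfs : ∀ z : ℂ, f (conj z) = conj (f z) := by
    intro z
    rw [hf]
    show u * iteratedDeriv n E (I * conj z) = conj (u * iteratedDeriv n E (I * z))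
    have e1 : I * conj z = conj (-(I * z)) := by simp
    rw [e1, conj_iter hEc n, hpar, map_mul, map_mul, Complex.conj_ofReal, ← hu]
    ring
  have hfz : ∀ z : ℂ, f z = 0 → iteratedDeriv n E (I * z) = 0 := by
    intro z hz
    rw [hf] at hz
    exact (mul_eq_zero.1 hz).resolve_left hu0
  obtain ⟨A, hA, hGr⟩ := grow_G hK hL1 H
  obtain ⟨B, hB, hGr2⟩ := grow_iter H.diff hA hGr n
  have hfg : ∃ B' : ℝ, 0 ≤ B' ∧ ∀ z : ℂ, ‖f z‖ ≤ Real.exp (B' * (1 + ‖z‖) ^ (3 / 2 : ℝ)) := by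
    have hωn : 0 < ‖ω‖ := norm_pos_iff.2 hω
    have hun : 0 < ‖u‖ := norm_pos_iff.2 hu0
    refine ⟨|Real.log (‖u‖ / ‖ω‖)| + B, by positivity, fun z => ?_⟩
    have h1 := hGr2 (I * z)
    rw [hGn, norm_mul, norm_mul, Complex.norm_I, one_mul] at h1
    have h2 : ‖f z‖ = ‖u‖ / ‖ω‖ * (‖ω‖ * ‖iteratedDeriv n E (I * z)‖) := by
      rw [hf]
      show ‖u * iteratedDeriv n E (I * z)‖ = _
      rw [norm_mul]
      field_simp
    have h4 : (1 : ℝ) ≤ (1 + ‖z‖) ^ (3 / 2 : ℝ) :=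
      Real.one_le_rpow (by linarith [norm_nonneg z]) (by norm_num)
    rw [h2]
    calc ‖u‖ / ‖ω‖ * (‖ω‖ * ‖iteratedDeriv n E (I * z)‖)
        ≤ Real.exp (Real.log (‖u‖ / ‖ω‖)) * Real.exp (B * (1 + ‖z‖) ^ (3 / 2 : ℝ)) := by
          rw [Real.exp_log (by positivity)]
          gcongr
      _ = Real.exp (Real.log (‖u‖ / ‖ω‖) + B * (1 + ‖z‖) ^ (3 / 2 : ℝ)) := (Real.exp_add _ _).symm
      _ ≤ _ := by
          apply Real.exp_le_exp.2
          rw [add_mul]
          have h5 := (le_abs_self (Real.log (‖u‖ / ‖ω‖))).trans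
            (le_mul_of_one_le_right (abs_nonneg (Real.log (‖u‖ / ‖ω‖))) h4)
          linarith
  obtain ⟨B', hB', hfg⟩ := hfg
  -- the sector
  have hsec : ∀ a : ℂ, f a = 0 → (D : ℝ) * a.im ^ 2 ≤ ‖a‖ ^ 2 := by
    intro a ha
    have h1 := hGz n _ (hfz a ha)
    have e1 : (I * a).re = -a.im := by simp
    have e2 : (I * a).im = a.re := by simp
    by_cases hc : K2 * el L (I * a).im ≤ n
    · have h2 := hnb n (I * a) hc
      have h3 : a.im = 0 := by
        by_contra h4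
        exact h2 ⟨h1, Or.inl (by rw [e1]; exact neg_ne_zero.2 h4)⟩
      rw [h3]
      simp
    · push Not at hc
      rw [e2] at hc
      have h2 := hn.trans_lt hc
      have h3 := lt_of_mul_lt_mul_left h2 (by linarith)
      unfold el at h3
      have h4 : Real.log (2 + D) < Real.log (2 + |a.re|) := by linarith
      have h5 := (Real.log_lt_log_iff (by positivity) (by positivity)).1 h4
      have h6 : (D : ℝ) < |a.re| := by linarith
      have h7 := strip_iter hK hL1 H hnb n h1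
      rw [e1, abs_neg] at h7
      have h8 : a.im ^ 2 ≤ 1 / 4 := by
        rw [← sq_abs]
        nlinarith [abs_nonneg a.im]
      have h9 : |a.re| ^ 2 ≤ ‖a‖ ^ 2 := pow_le_pow_left₀ (abs_nonneg _) (abs_re_le_norm a) 2
      have h10 : (D : ℝ) ^ 2 ≤ |a.re| ^ 2 := pow_le_pow_left₀ (by linarith) h6.le 2
      nlinarith [sq_nonneg a.im]
  -- the coefficients
  have hco : ∀ j : ℕ, iteratedDeriv j f 0 = u * (I ^ j * iteratedDeriv (n + j) E 0) := by
    intro j
    rw [hf, iteratedDeriv_const_mul_field, scale hEn, mul_zero, iter_iter]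
  have hsum : (∑ j ∈ Finset.range (D + 1), (D.choose j : ℂ) * iteratedDeriv j f 0 * (-I * x) ^ j) = 0 := by
    have e1 : (∑ j ∈ Finset.range (D + 1), (D.choose j : ℂ) * iteratedDeriv j f 0 * (-I * x) ^ j) =
        u * ∑ j ∈ Finset.range (D + 1), (D.choose j : ℂ) * iteratedDeriv (n + j) E 0 * x ^ j := by
      rw [Finset.mul_sum]
      refine Finset.sum_congr rfl fun j _ => ?_
      have e2 : (I : ℂ) ^ j * (-I * x) ^ j = x ^ j := by
        rw [← mul_pow]
        congr 1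
        have := Complex.I_mul_I
        linear_combination (-x) * this
      rw [hco, ← e2]
      ring
    rw [e1, hx, mul_zero]
  have hfin : (-I * x).im = 0 := by
    rcases hw'1 with h | h
    · refine jensen_of hfd ?_ hfs hB' hfg D hsec _ hsum
      intro h0
      have h1 := hfz 0 h0
      rw [mul_zero] at h1
      apply hnb0
      refine ⟨hGz _ _ h1, Or.inr (hGz _ _ ?_)⟩
      have h2 := hpar1 0
      rw [neg_zero, h] at h2
      push_cast at h2
      have h3 : 2 * iteratedDeriv (n + 1) E 0 = 0 := by linear_combination h2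
      exact (mul_eq_zero.1 h3).resolve_left two_ne_zero
    · have h0 : iteratedDeriv n E 0 = 0 := by
        have h2 := hpar 0
        rw [neg_zero, h] at h2
        push_cast at h2
        have h3 : 2 * iteratedDeriv n E 0 = 0 := by linear_combination h2
        exact (mul_eq_zero.1 h3).resolve_left two_ne_zero
      refine jensen_of_zero hfd ?_ ?_ hfs hB' hfg D hsec _ hsum hD
      · rw [hf]
        show u * iteratedDeriv n E (I * 0) = 0
        rw [mul_zero, h0, mul_zero]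
      · have h1 := hco 1
        rw [iteratedDeriv_one] at h1
        rw [h1]
        refine mul_ne_zero hu0 (mul_ne_zero (pow_ne_zero _ I_ne_zero) fun h2 => hnb0 ?_)
        exact ⟨hGz _ _ h0, Or.inr (hGz _ _ h2)⟩
  simpa using hfin

end Pool.Agent.Hp428.TJ
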