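import Pool.Agent.Hp428.TJ.Law
import Pool.Agent.Hp428.TJ.Main

set_option autoImplicit false

/-!
# The law for the Jensen polynomials
-/

namespace Pool.Agent.Hp428.TJ

open Complex
open Pool.Agent.Y19.QT (IsLFun sqf mem_sqf HasTwists lindelofLaw_of TwistsModular isLFun_uniq)
open Pool.Agent.Hp428.TD
open scoped ComplexConjugate

theorem jensenLaw_of {a b : ℤ} (hab : 4 * a ^ 3 + 27 * b ^ 2 ≠ 0) (h : HasTwists a b)
    (hL : ∀ d : ℤ, Squarefree d → ∃ F : ℂ → ℂ, IsLFun (a * d ^ 2) (b * d ^ 3) F) :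
    JensenLaw a b := by
  have hlin := lindelofLaw_of hab h hL
  obtain ⟨Q, lam, ⟨T⟩, hQ, hlam⟩ := h
  refine ⟨exists_completed a b hab T hQ hlam hL, fun c M hM K => ?_⟩
  obtain ⟨C, K3, hC, hK3, hgood⟩ := good_twists a b hab T hQ hlam hlin K
  have hl2 : 0 < Real.log 2 := Real.log_pos (by norm_num)
  have hlc : 0 ≤ Real.log (max 1 c) := Real.log_nonneg (le_max_left _ _)
  have hlc2 : 0 ≤ Real.log (max 1 c) / Real.log 2 := div_nonneg hlc hl2.le
  have hK0 : (0 : ℝ) ≤ K := Nat.cast_nonneg _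
  obtain ⟨K2, L0, hK2, hL0, hmain⟩ := jensen_abs
    (K := K3 + Real.log (max 1 c) / Real.log 2 + K + Real.log (max 1 c) + 3) (by linarith)
  have hex : ∀ d : ℤ, ∃ F : ℂ → ℂ, Squarefree d → IsLFun (a * d ^ 2) (b * d ^ 3) F := by
    intro d
    by_cases hd : Squarefree d
    · obtain ⟨F, hF⟩ := hL d hd
      exact ⟨F, fun _ => hF⟩
    · exact ⟨0, fun h => absurd h hd⟩
  choose F0 hF0 using hex
  refine ⟨C + 3 * L0 ^ K, K2, fun X S hX hS hbad => ?_⟩
  have hX0 : (0 : ℝ) < X := by exact_mod_cast (by omega : 0 < X)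
  have hl := Pool.Agent.Y474.QTZ6.one_le_log hX
  have hLK : 0 < Real.log X ^ K := by positivity
  rcases le_total (Real.log X) L0 with hXL | hXL
  · refine (small_X (K := K) hX hXL S hS).trans ?_
    gcongr
    linarith
  · have h5 : 5 ≤ Real.log X := by linarith
    have key : (S.card : ℝ) ≤ C * X / Real.log X ^ K := by
      refine hgood F0 hF0 X S hX h5 hS ?_
      rintro d hd ⟨hrn, hdl⟩
      obtain ⟨D, n, x, hD, hn, h1, h2⟩ := hbad d hd
      obtain ⟨hdX, hsq⟩ := mem_sqf.1 (hS hd)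
      have hd0 : d ≠ 0 := hsq.ne_zero
      have hdL : Real.log |(d : ℝ)| ≤ Real.log X := by
        apply Real.log_le_log (abs_pos.2 (by exact_mod_cast hd0))
        exact_mod_cast hdX
      obtain ⟨Q', R, G, ω, hω, hGQ, hG⟩ := gq_of (hM d hsq) (hF0 d hsq) (L := Real.log X)
        (K := K3) (κ := K) h5 hK3 hK0 hd0 hdL hdl hrn
      obtain ⟨w, hw, hfe⟩ := (hM d hsq).fe
      have hE : Differentiable ℂ (fun z => M d (1 + z)) :=
        (hM d hsq).entire.comp (differentiable_id.const_add 1)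
      refine h2 (hmain (Real.log X) Q' w R G (fun z => M d (1 + z)) ω hXL hGQ hω hG hE
        (fun z => ?_) hw (fun z => ?_) D n x hD hn ?_)
      · show M d (1 + conj z) = conj (M d (1 + z))
        rw [← (hM d hsq).real, map_add, map_one]
      · show M d (1 + -z) = w * M d (1 + z)
        rw [← hfe]
        congr 1
        ring
      · unfold jensen at h1
        refine Eq.trans (Finset.sum_congr rfl fun j _ => ?_) h1
        rw [iteratedDeriv_comp_const_add]
        beta_reduce
        rw [add_zero]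
    refine key.trans ?_
    gcongr
    have : 0 ≤ 3 * L0 ^ K := by positivity
    linarith

end Pool.Agent.Hp428.TJ
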