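import Pool.Agent.Hp428.TJ.Had

/-!
# Jensen polynomials of functions with zeros in a sector
-/

set_option autoImplicit false

namespace Pool.Agent.Hp428.TJ

open Complex Filter Topology Polynomial Metric Pool.Agent.H24R2.JP

/-- convergence of the Taylor coefficients -/
theorem coef_tend {Q : ℕ → ℝ[X]} {f : ℂ → ℂ}
    (h : TendstoLocallyUniformly (fun (N : ℕ) (w : ℂ) => aeval w (Q N)) f atTop) (j : ℕ) :
    Tendsto (fun N => (j.factorial : ℂ) * (((Q N).coeff j : ℝ) : ℂ)) atTop (𝓝 (iteratedDeriv j f 0)) := by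
  have key : TendstoLocallyUniformly (fun (N : ℕ) (z : ℂ) =>
      (derivative^[j] ((Q N).map (algebraMap ℝ ℂ))).eval z) (iteratedDeriv j f) atTop := by
    induction j with
    | zero =>
      rw [iteratedDeriv_zero]
      simp only [Function.iterate_zero, id_eq, eval_map_algebraMap]
      exact h
    | succ j ih =>
      rw [iteratedDeriv_succ]
      simp only [Function.iterate_succ_apply']
      exact Pool.Agent.Y671.LD.CirAux.tlu_deriv ih
  have h1 := (tendstoLocallyUniformlyOn_univ.2 key).tendsto_at (Set.mem_univ (0 : ℂ))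
  refine h1.congr fun N => ?_
  rw [← coeff_zero_eq_eval_zero, coeff_iterate_derivative, zero_add, Nat.descFactorial_self,
    coeff_map, nsmul_eq_mul, Complex.coe_algebraMap]

/-- **Jensen polynomials** of a real entire function of order less than two all zeros of which are in
the double sector `d (Im a)² ≤ |a|²`. -/
theorem jensen_of {f : ℂ → ℂ} (hf : Differentiable ℂ f) (h0 : f 0 ≠ 0)
    (hsym : ∀ x, f ((starRingEnd ℂ) x) = (starRingEnd ℂ) (f x)) {K : ℝ} (hK : 0 ≤ K)
    (hb : ∀ w, ‖f w‖ ≤ Real.exp (K * (1 + ‖w‖) ^ (3 / 2 : ℝ))) (d : ℕ)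
    (hz : ∀ a : ℂ, f a = 0 → (d : ℝ) * a.im ^ 2 ≤ ‖a‖ ^ 2) (z : ℂ)
    (hz0 : (∑ j ∈ Finset.range (d + 1), (d.choose j : ℂ) * iteratedDeriv j f 0 * z ^ j) = 0) :
    z.im = 0 := by
  obtain ⟨Q, hQ1, hQ2⟩ := had_realR hf h0 hsym hK hb
  have hcoef := coef_tend hQ2
  refine limit d (fun N j => (j.factorial : ℂ) * (((Q N).coeff j : ℝ) : ℂ))
    (fun j => iteratedDeriv j f 0) (by simpa using h0) (fun j _ => hcoef j) ?_ z hz0
  have e2 : ∀ᶠ N in atTop, (((0 : ℕ).factorial : ℂ) * (((Q N).coeff 0 : ℝ) : ℂ)) ≠ 0 :=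
    (hcoef 0).eventually_ne (by simpa using h0)
  filter_upwards [e2] with N hN2
  have hc0 : (Q N).coeff 0 ≠ 0 := by
    intro h
    rw [h] at hN2
    simp at hN2
  refine sector chasse (Q N) d hc0 fun a ha => ?_
  rcases hQ1 N a ha with h | h
  · exact hz a h
  · rw [h]
    simp

/-- The same for a function with a simple zero at the origin. -/
theorem jensen_of_zero {f : ℂ → ℂ} (hf : Differentiable ℂ f) (h0 : f 0 = 0) (h1 : deriv f 0 ≠ 0)
    (hsym : ∀ x, f ((starRingEnd ℂ) x) = (starRingEnd ℂ) (f x)) {K : ℝ} (hK : 0 ≤ K)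
    (hb : ∀ w, ‖f w‖ ≤ Real.exp (K * (1 + ‖w‖) ^ (3 / 2 : ℝ))) (d : ℕ)
    (hz : ∀ a : ℂ, f a = 0 → (d : ℝ) * a.im ^ 2 ≤ ‖a‖ ^ 2) (z : ℂ)
    (hz0 : (∑ j ∈ Finset.range (d + 1), (d.choose j : ℂ) * iteratedDeriv j f 0 * z ^ j) = 0)
    (hd : 1 ≤ d) : z.im = 0 := by
  obtain ⟨h, hh⟩ : ∃ h : ℂ → ℂ, h = dslope f 0 := ⟨_, rfl⟩
  have hfh : ∀ w, f w = w * h w := by
    intro w
    have := sub_smul_dslope f 0 w
    rw [h0, sub_zero, sub_zero, smul_eq_mul] at this
    rw [hh]
    exact this.symm
  have hhd : Differentiable ℂ h := by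
    rw [hh, ← differentiableOn_univ]
    exact (Complex.differentiableOn_dslope (by simp)).2 hf.differentiableOn
  have hh0 : h 0 = deriv f 0 := by rw [hh, dslope_same]
  have hhsym : ∀ x, h ((starRingEnd ℂ) x) = (starRingEnd ℂ) (h x) := by
    have hc : Continuous fun x => h ((starRingEnd ℂ) x) := hhd.continuous.comp continuous_conj
    have hc2 : Continuous fun x => (starRingEnd ℂ) (h x) := continuous_conj.comp hhd.continuous
    have heq : Set.EqOn (fun x => h ((starRingEnd ℂ) x)) (fun x => (starRingEnd ℂ) (h x)) {(0 : ℂ)}ᶜ := by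
      intro x hx
      have hx0 : (starRingEnd ℂ) x ≠ 0 := by simpa using hx
      have e := hsym x
      rw [hfh, hfh x, map_mul] at e
      exact mul_left_cancel₀ hx0 e
    have hde : Dense ({(0 : ℂ)}ᶜ : Set ℂ) := dense_compl_singleton 0
    exact fun x => congrFun (hc.ext_on hde hc2 heq) x
  -- growth
  have hbd : ∀ w, ‖h w‖ ≤ Real.exp ((K * 2 ^ (3 / 2 : ℝ)) * (1 + ‖w‖) ^ (3 / 2 : ℝ)) := by
    have h2 : (1 : ℝ) ≤ 2 ^ (3 / 2 : ℝ) := Real.one_le_rpow (by norm_num) (by norm_num)
    intro w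
    rcases le_or_gt 1 ‖w‖ with hw | hw
    · have e := congrArg norm (hfh w)
      rw [norm_mul] at e
      have h3 : ‖h w‖ ≤ ‖f w‖ := by
        rw [e]
        exact le_mul_of_one_le_left (norm_nonneg _) hw
      refine h3.trans ((hb w).trans (Real.exp_le_exp.2 ?_))
      apply mul_le_mul_of_nonneg_right _ (by positivity)
      exact le_mul_of_one_le_right hK h2
    · have hmax := Complex.norm_le_of_forall_mem_frontier_norm_le (U := ball (0 : ℂ) 1)
        (f := h) (C := Real.exp (K * 2 ^ (3 / 2 : ℝ))) isBounded_ball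
        (hhd.diffContOnCl) (by
          intro u hu
          rw [frontier_ball _ one_ne_zero, mem_sphere_zero_iff_norm] at hu
          have e := congrArg norm (hfh u)
          rw [norm_mul, hu, one_mul] at e
          rw [← e]
          refine (hb u).trans (Real.exp_le_exp.2 ?_)
          rw [hu]
          norm_num) (z := w) (subset_closure (by simpa using hw))
      refine hmax.trans (Real.exp_le_exp.2 ?_)
      refine le_mul_of_one_le_right (by positivity) ?_
      exact Real.one_le_rpow (by linarith [norm_nonneg w]) (by norm_num)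
  -- Taylor coefficients
  have hder : ∀ (j : ℕ) (w : ℂ), iteratedDeriv (j + 1) f w =
      w * iteratedDeriv (j + 1) h w + (j + 1) * iteratedDeriv j h w := by
    intro j
    have hc : ∀ m : ℕ, Differentiable ℂ (iteratedDeriv m h) := fun m =>
      (hhd.contDiff (n := (⊤ : ℕ∞))).differentiable_iteratedDeriv m
        (by exact_mod_cast WithTop.coe_lt_top m)
    induction j with
    | zero =>
      intro w
      have hf' : f = fun w => w * h w := funext hfh
      rw [zero_add, iteratedDeriv_one, iteratedDeriv_zero, iteratedDeriv_one]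
      have := ((hasDerivAt_id w).mul (hhd w).hasDerivAt).deriv
      rw [hf']
      refine this.trans ?_
      simp
      ring
    | succ j ih =>
      intro w
      rw [iteratedDeriv_succ, funext ih]
      have e1 : HasDerivAt (fun w : ℂ => w * iteratedDeriv (j + 1) h w)
          (1 * iteratedDeriv (j + 1) h w + w * deriv (iteratedDeriv (j + 1) h) w) w :=
        (hasDerivAt_id w).mul (hc (j + 1) w).hasDerivAt
      have e2 : HasDerivAt (fun w : ℂ => ((j : ℂ) + 1) * iteratedDeriv j h w)
          (((j : ℂ) + 1) * deriv (iteratedDeriv j h) w) w := ((hc j w).hasDerivAt).const_mul _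
      refine (e1.add e2).deriv.trans ?_
      rw [← iteratedDeriv_succ, ← iteratedDeriv_succ]
      push_cast
      ring
  obtain ⟨e, rfl⟩ : ∃ e, d = e + 1 := ⟨d - 1, by omega⟩
  have hsum : (∑ j ∈ Finset.range (e + 1 + 1), ((e + 1).choose j : ℂ) * iteratedDeriv j f 0 * z ^ j) =
      ((e : ℂ) + 1) * z * ∑ j ∈ Finset.range (e + 1), (e.choose j : ℂ) * iteratedDeriv j h 0 * z ^ j := by
    rw [Finset.sum_range_succ', iteratedDeriv_zero, h0, mul_zero, zero_mul, add_zero, Finset.mul_sum]
    refine Finset.sum_congr rfl fun j _ => ?_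
    rw [hder, zero_mul, zero_add]
    have hch : ((e : ℂ) + 1) * (e.choose j : ℂ) = ((e + 1).choose (j + 1) : ℂ) * ((j : ℂ) + 1) := by
      exact_mod_cast Nat.add_one_mul_choose_eq e j
    linear_combination (-(iteratedDeriv j h 0 * z ^ (j + 1))) * hch
  rw [hsum] at hz0
  rcases mul_eq_zero.1 hz0 with h3 | h3
  · rcases mul_eq_zero.1 h3 with h4 | h4
    · exfalso
      exact Nat.cast_add_one_ne_zero e h4
    · rw [h4]
      simp
  · refine jensen_of hhd (by rw [hh0]; exact h1) hhsym (by positivity) hbd e (fun a ha => ?_) z h3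
    have h4 := hz a (by rw [hfh, ha, mul_zero])
    push_cast at h4
    nlinarith [sq_nonneg a.im]

end Pool.Agent.Hp428.TJ
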