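import Pool.Agent.Hp428.TD.Law

set_option autoImplicit false

/-!
# Jensen polynomials of the completed L-functions of quadratic twists: definitions
-/

namespace Pool.Agent.Hp428.TJ

open Complex
open Pool.Agent.Y19.QT (IsLFun sqf)
open Pool.Agent.Hp428.TD (IsCompleted)

/-- The value at `x` of the Jensen polynomial of degree `D` and shift `n` of the sequence of the
derivatives of `M` at the central point `1`: `∑_{j ≤ D} binom(D, j) M^(n+j)(1) x^j`. -/
noncomputable def jensen (M : ℂ → ℂ) (D n : ℕ) (x : ℂ) : ℂ :=
  ∑ j ∈ Finset.range (D + 1), (D.choose j : ℂ) * iteratedDeriv (n + j) M 1 * x ^ j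

/-- The Jensen polynomials of the completed L-functions of almost all quadratic twists
`E_d : y² = x³ + a d² x + b d³` of `E : y² = x³ + a x + b`, `d` squarefree (positive or negative): the
completed L-functions exist, with a constant `c` depending on `E` only; and for every `c` and every
choice of completed L-functions `M_d` with this constant, for every `K` there are `C`, `K'` such that for
all `X ≥ 3` and for all squarefree `d`, `|d| ≤ X`, except at most `C X / (log X)^K` of them, the following
holds for all degrees `D ≥ 1` and all shifts `n ≥ K' (log log X + log (2 + D))`: all zeros of the Jensen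
polynomial of `M_d` of degree `D` and shift `n` are purely imaginary. -/
def JensenLaw (a b : ℤ) : Prop :=
  (∃ c : ℝ, ∀ d : ℤ, Squarefree d → ∃ M : ℂ → ℂ, IsCompleted a b d c M) ∧
  ∀ (c : ℝ) (M : ℤ → ℂ → ℂ), (∀ d : ℤ, Squarefree d → IsCompleted a b d c (M d)) →
    ∀ K : ℕ, ∃ C K' : ℝ, ∀ (X : ℕ) (S : Finset ℤ), 3 ≤ X → S ⊆ sqf X →
      (∀ d ∈ S, ∃ (D n : ℕ) (x : ℂ), 1 ≤ D ∧
        K' * (Real.log (Real.log X) + Real.log (2 + D)) ≤ n ∧ jensen (M d) D n x = 0 ∧ x.re ≠ 0) →
      (S.card : ℝ) ≤ C * X / Real.log X ^ K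

end Pool.Agent.Hp428.TJ
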